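import Pool.Agent.Helper43_ABC3.TRC

/-!
# Squad ABC3, row EPT (helper43): endomorphisms of `T(Z)` are scalars plus relative traces
-/

set_option autoImplicit false

namespace Pool.Agent.ABC3.H43

open Matrix

section blocks

variable {K : Type} [Field K] {ι : Type} [Fintype ι] [DecidableEq ι] (c₀ : ι)

/-- Split off one coordinate. -/
def E : St ι ≃ Bool × St {c // c ≠ c₀} where
  toFun s := (s c₀, fun i => s i.1)
  invFun p := fun c => if h : c = c₀ then p.1 else p.2 ⟨c, h⟩
  left_inv s := by
    funext c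
    by_cases h : c = c₀
    · subst h
      simp
    · simp [h]
  right_inv p := by
    apply Prod.ext
    · simp
    · funext i
      simp [i.2]

theorem E_symm_self (b : Bool) (s : St {c // c ≠ c₀}) : (E c₀).symm (b, s) c₀ = b := by
  show (if h : c₀ = c₀ then b else s ⟨c₀, h⟩) = b
  simp

theorem E_symm_ne (b : Bool) (s : St {c // c ≠ c₀}) (i : {c // c ≠ c₀}) :
    (E c₀).symm (b, s) i.1 = s i := by
  show (if h : i.1 = c₀ then b else s ⟨i.1, h⟩) = s i
  simp [i.2]

/-- Blocks of an operator. -/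
def bl (b b' : Bool) (f : Matrix (St ι) (St ι) K) : Matrix (St {c // c ≠ c₀}) (St {c // c ≠ c₀}) K :=
  fun s s' => f ((E c₀).symm (b, s)) ((E c₀).symm (b', s'))

/-- The operator with given blocks. -/
def mkb (A : Bool → Bool → Matrix (St {c // c ≠ c₀}) (St {c // c ≠ c₀}) K) :
    Matrix (St ι) (St ι) K :=
  fun s s' => A (E c₀ s).1 (E c₀ s').1 (E c₀ s).2 (E c₀ s').2

theorem bl_mkb (A : Bool → Bool → Matrix (St {c // c ≠ c₀}) (St {c // c ≠ c₀}) K) (b b' : Bool) :
    bl c₀ b b' (mkb c₀ A) = A b b' := by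
  ext s s'
  unfold bl mkb
  rw [Equiv.apply_symm_apply, Equiv.apply_symm_apply]

theorem bl_ext {f g : Matrix (St ι) (St ι) K} (h : ∀ b b', bl c₀ b b' f = bl c₀ b b' g) : f = g := by
  ext s s'
  have := congrFun (congrFun (h (E c₀ s).1 (E c₀ s').1) (E c₀ s).2) (E c₀ s').2
  unfold bl at this
  rw [Prod.mk.eta, Prod.mk.eta, Equiv.symm_apply_apply, Equiv.symm_apply_apply] at this
  exact this

theorem bl_mul (f g : Matrix (St ι) (St ι) K) (b b' : Bool) :
    bl c₀ b b' (f * g) = bl c₀ b false f * bl c₀ false b' g + bl c₀ b true f * bl c₀ true b' g := by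
  ext s s'
  show (f * g) _ _ = _
  rw [Matrix.mul_apply, Matrix.add_apply, Matrix.mul_apply, Matrix.mul_apply,
    ← (E c₀).symm.sum_comp, Fintype.sum_prod_type, Fintype.sum_bool, add_comm]
  rfl

theorem bl_add (f g : Matrix (St ι) (St ι) K) (b b' : Bool) :
    bl c₀ b b' (f + g) = bl c₀ b b' f + bl c₀ b b' g := rfl

theorem bl_smul (a : K) (f : Matrix (St ι) (St ι) K) (b b' : Bool) :
    bl c₀ b b' (a • f) = a • bl c₀ b b' f := rfl

theorem bl_sum {α : Type} (s : Finset α) (f : α → Matrix (St ι) (St ι) K) (b b' : Bool) :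
    bl c₀ b b' (∑ i ∈ s, f i) = ∑ i ∈ s, bl c₀ b b' (f i) := by
  ext t t'
  show (∑ i ∈ s, f i) _ _ = _
  rw [Matrix.sum_apply, Matrix.sum_apply]
  rfl

theorem bl_one (b b' : Bool) : bl c₀ b b' (1 : Matrix (St ι) (St ι) K) = if b = b' then 1 else 0 := by
  ext s s'
  unfold bl
  rw [Matrix.one_apply]
  by_cases hb : b = b'
  · subst hb
    rw [if_pos rfl, Matrix.one_apply]
    by_cases hs : s = s'
    · subst hs
      simp
    · rw [if_neg hs, if_neg]
      intro h
      exact hs (congrArg Prod.snd ((E c₀).symm.injective h))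
  · rw [if_neg hb, if_neg, Matrix.zero_apply]
    intro h
    exact hb (congrArg Prod.fst ((E c₀).symm.injective h))

theorem E_update_self (b b' : Bool) (s : St {c // c ≠ c₀}) :
    Function.update ((E c₀).symm (b, s)) c₀ b' = (E c₀).symm (b', s) := by
  funext c
  by_cases h : c = c₀
  · subst h
    rw [Function.update_self, E_symm_self]
  · rw [Function.update_of_ne h]
    exact (E_symm_ne c₀ b s ⟨c, h⟩).trans (E_symm_ne c₀ b' s ⟨c, h⟩).symm

theorem E_update_ne (b b' : Bool) (s : St {c // c ≠ c₀}) (i : {c // c ≠ c₀}) :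
    Function.update ((E c₀).symm (b, s)) i.1 b' = (E c₀).symm (b, Function.update s i b') := by
  obtain ⟨i, hi⟩ := i
  show Function.update ((E c₀).symm (b, s)) i b' = (E c₀).symm (b, Function.update s ⟨i, hi⟩ b')
  funext c
  by_cases h : c = c₀
  · subst h
    rw [Function.update_of_ne (Ne.symm hi), E_symm_self, E_symm_self]
  · have h2 := E_symm_ne c₀ b (Function.update s ⟨i, hi⟩ b') ⟨c, h⟩
    refine Eq.trans ?_ h2.symm
    by_cases h3 : c = i
    · subst h3
      rw [Function.update_self, Function.update_self]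
    · have h4 : (⟨c, h⟩ : {c // c ≠ c₀}) ≠ ⟨i, hi⟩ := fun h5 => h3 (congrArg Subtype.val h5)
      rw [Function.update_of_ne h3, Function.update_of_ne h4]
      exact E_symm_ne c₀ b s ⟨c, h⟩

theorem bl_xc_self (b b' : Bool) :
    bl c₀ b b' (xc K c₀) = if b' = false ∧ b = true then 1 else 0 := by
  ext s s'
  unfold bl xc
  rw [E_symm_self, E_update_self]
  by_cases hb : b' = false
  · by_cases hb2 : b = true
    · subst hb hb2
      rw [if_pos (⟨rfl, rfl⟩ : false = false ∧ true = true), Matrix.one_apply]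
      by_cases hs : s = s'
      · subst hs
        simp
      · rw [if_neg hs, if_neg]
        rintro ⟨-, h⟩
        exact hs (congrArg Prod.snd ((E c₀).symm.injective h))
    · rw [if_neg, if_neg, Matrix.zero_apply]
      · rintro ⟨-, h⟩
        exact hb2 h
      · rintro ⟨-, h⟩
        exact hb2 (congrArg Prod.fst ((E c₀).symm.injective h))
  · rw [if_neg, if_neg, Matrix.zero_apply]
    · rintro ⟨h, -⟩
      exact hb h
    · rintro ⟨h, -⟩
      exact hb h

theorem bl_xc_ne (b b' : Bool) (i : {c // c ≠ c₀}) :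
    bl c₀ b b' (xc K i.1) = if b = b' then xc K i else 0 := by
  by_cases hb : b = b'
  · subst hb
    rw [if_pos rfl]
    ext s s'
    unfold bl xc
    rw [E_symm_ne, E_update_ne]
    by_cases h1 : s' i = false
    · by_cases h2 : s = Function.update s' i true
      · rw [if_pos ⟨h1, by rw [h2]⟩, if_pos ⟨h1, h2⟩]
      · rw [if_neg, if_neg]
        · rintro ⟨-, h⟩
          exact h2 h
        · rintro ⟨-, h⟩
          exact h2 (congrArg Prod.snd ((E c₀).symm.injective h))
    · rw [if_neg, if_neg]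
      · rintro ⟨h, -⟩
        exact h1 h
      · rintro ⟨h, -⟩
        exact h1 h
  · rw [if_neg hb]
    ext s s'
    unfold bl xc
    rw [E_symm_ne, E_update_ne, if_neg, Matrix.zero_apply]
    rintro ⟨-, h⟩
    exact hb (congrArg Prod.fst ((E c₀).symm.injective h))

theorem sum_split {M : Type} [AddCommMonoid M] (F : ι → M) :
    ∑ c, F c = F c₀ + ∑ i : {c // c ≠ c₀}, F i.1 := by
  rw [← Finset.add_sum_erase Finset.univ F (Finset.mem_univ c₀)]
  congr 1
  have h : (Finset.univ.erase c₀ : Finset ι) = Finset.univ.filter (fun c => c ≠ c₀) := by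
    ext c
    simp
  rw [h]
  exact (Finset.sum_subtype (Finset.univ.filter (fun c => c ≠ c₀)) (p := fun c => c ≠ c₀)
    (fun x => by simp) F)

theorem bl_mu (w : ι → K) (b b' : Bool) :
    bl c₀ b b' (mu w) = (if b' = false ∧ b = true then w c₀ • 1 else 0) +
      if b = b' then mu (fun i : {c // c ≠ c₀} => w i.1) else 0 := by
  rw [mu_def, sum_split c₀, bl_add, bl_smul, bl_xc_self, bl_sum, mu_def]
  congr 1
  · split_ifs <;> simp
  · have e : ∀ i : {c // c ≠ c₀}, bl c₀ b b' (w i.1 • xc K i.1) =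
        if b = b' then w i.1 • xc K i else 0 := by
      intro i
      rw [bl_smul, bl_xc_ne]
      split_ifs <;> simp
    rw [Finset.sum_congr rfl (fun i _ => e i)]
    split_ifs <;> simp

theorem sdeg_E (b : Bool) (s : St {c // c ≠ c₀}) :
    sdeg ((E c₀).symm (b, s)) = (if b = true then 1 else 0) + sdeg s := by
  have key : ∀ {κ : Type} [Fintype κ] [DecidableEq κ] (t : St κ),
      sdeg t = ∑ c, (if t c = true then (1 : ℤ) else 0) := by
    intro κ _ _ t
    unfold sdeg
    rw [Finset.card_filter]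
    push_cast
    rfl
  rw [key, key, sum_split c₀, E_symm_self]
  congr 1
  refine Finset.sum_congr rfl fun i _ => ?_
  rw [E_symm_ne]

theorem bl_ext4 {f g : Matrix (St ι) (St ι) K} (h00 : bl c₀ false false f = bl c₀ false false g)
    (h01 : bl c₀ false true f = bl c₀ false true g) (h10 : bl c₀ true false f = bl c₀ true false g)
    (h11 : bl c₀ true true f = bl c₀ true true g) : f = g := by
  apply bl_ext c₀
  intro b b'
  cases b <;> cases b'
  · exact h00
  · exact h01
  · exact h10
  · exact h11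

/-- Block diagonal operators. -/
def D (M : Matrix (St {c // c ≠ c₀}) (St {c // c ≠ c₀}) K) : Matrix (St ι) (St ι) K :=
  mkb c₀ (fun b b' => if b = b' then M else 0)

/-- Block in the upper right corner. -/
def G (M : Matrix (St {c // c ≠ c₀}) (St {c // c ≠ c₀}) K) : Matrix (St ι) (St ι) K :=
  mkb c₀ (fun b b' => if b = false ∧ b' = true then M else 0)

theorem bl_D (M : Matrix (St {c // c ≠ c₀}) (St {c // c ≠ c₀}) K) (b b' : Bool) :
    bl c₀ b b' (D c₀ M) = if b = b' then M else 0 := bl_mkb c₀ _ b b'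

theorem bl_G (M : Matrix (St {c // c ≠ c₀}) (St {c // c ≠ c₀}) K) (b b' : Bool) :
    bl c₀ b b' (G c₀ M) = if b = false ∧ b' = true then M else 0 := bl_mkb c₀ _ b b'

theorem D_add (M N : Matrix (St {c // c ≠ c₀}) (St {c // c ≠ c₀}) K) :
    D c₀ (M + N) = D c₀ M + D c₀ N := by
  apply bl_ext c₀
  intro b b'
  rw [bl_add, bl_D, bl_D, bl_D]
  split_ifs <;> simp

theorem D_smul (a : K) (M : Matrix (St {c // c ≠ c₀}) (St {c // c ≠ c₀}) K) :
    D c₀ (a • M) = a • D c₀ M := by
  apply bl_ext c₀
  intro b b'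
  rw [bl_smul, bl_D, bl_D]
  split_ifs <;> simp

theorem D_one : D c₀ (1 : Matrix (St {c // c ≠ c₀}) (St {c // c ≠ c₀}) K) = 1 := by
  apply bl_ext c₀
  intro b b'
  rw [bl_D, bl_one]

theorem D_sum {α : Type} (s : Finset α)
    (F : α → Matrix (St {c // c ≠ c₀}) (St {c // c ≠ c₀}) K) :
    D c₀ (∑ i ∈ s, F i) = ∑ i ∈ s, D c₀ (F i) := by
  apply bl_ext c₀
  intro b b'
  rw [bl_sum, bl_D]
  by_cases h : b = b'
  · rw [if_pos h]
    refine Finset.sum_congr rfl fun i _ => ?_
    rw [bl_D, if_pos h]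
  · rw [if_neg h]
    symm
    apply Finset.sum_eq_zero
    intro i _
    rw [bl_D, if_neg h]

theorem hasDeg_of_bl {k : ℤ} {f : Matrix (St ι) (St ι) K}
    (h : ∀ b b', HasDeg sdeg (k + (if b' = true then 1 else 0) - (if b = true then 1 else 0))
      (bl c₀ b b' f)) : HasDeg sdeg k f := by
  intro s s' hs
  have h1 := h (E c₀ s).1 (E c₀ s').1 (E c₀ s).2 (E c₀ s').2 (by
    unfold bl
    rw [Prod.mk.eta, Prod.mk.eta, Equiv.symm_apply_apply, Equiv.symm_apply_apply]
    exact hs)
  have h2 := sdeg_E c₀ (E c₀ s).1 (E c₀ s).2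
  have h3 := sdeg_E c₀ (E c₀ s').1 (E c₀ s').2
  rw [Prod.mk.eta, Equiv.symm_apply_apply] at h2 h3
  rw [h2, h3, h1]
  ring

theorem hasDeg_bl {k : ℤ} {f : Matrix (St ι) (St ι) K} (h : HasDeg sdeg k f) (b b' : Bool) :
    HasDeg sdeg (k + (if b' = true then 1 else 0) - (if b = true then 1 else 0))
      (bl c₀ b b' f) := by
  intro s s' hs
  have h1 := h _ _ hs
  rw [sdeg_E, sdeg_E] at h1
  linarith

theorem hasDeg_zero {k : ℤ} {B : Type} (deg : B → ℤ) : HasDeg deg k (0 : Matrix B B K) := by
  intro s s' h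
  exact absurd rfl h

theorem hasDeg_D {k : ℤ} {M : Matrix (St {c // c ≠ c₀}) (St {c // c ≠ c₀}) K}
    (h : HasDeg sdeg k M) : HasDeg sdeg k (D c₀ M) := by
  apply hasDeg_of_bl c₀
  intro b b'
  rw [bl_D]
  by_cases hb : b = b'
  · subst hb
    rw [if_pos rfl, add_sub_cancel_right]
    exact h
  · rw [if_neg hb]
    exact hasDeg_zero _

theorem hasDeg_G {k : ℤ} {M : Matrix (St {c // c ≠ c₀}) (St {c // c ≠ c₀}) K}
    (h : HasDeg sdeg (k + 1) M) : HasDeg sdeg k (G c₀ M) := by
  apply hasDeg_of_bl c₀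
  intro b b'
  rw [bl_G]
  by_cases hb : b = false ∧ b' = true
  · obtain ⟨rfl, rfl⟩ := hb
    rw [if_pos (⟨rfl, rfl⟩ : false = false ∧ true = true)]
    simpa using h
  · rw [if_neg hb]
    exact hasDeg_zero _

end blocks

section step

variable {K Q : Type} [Field K] [CharP K 3] [AddCommGroup Q] [Module K Q]
  {ι : Type} [Fintype ι] [DecidableEq ι] (ev : ι → (Q →ₗ[K] K)) (c₀ : ι)

/-- The family without `c₀`. -/
abbrev ev' : {c // c ≠ c₀} → (Q →ₗ[K] K) := fun i => ev i.1

theorem act_bl (q : Q) (b b' : Bool) : bl c₀ b b' ((TSys ev).act q) =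
    (if b' = false ∧ b = true then ev c₀ q • 1 else 0) +
      if b = b' then (TSys (ev' ev c₀)).act q else 0 := by
  rw [TSys_act, bl_mu, TSys_act]

theorem act_00 (q : Q) : bl c₀ false false ((TSys ev).act q) = (TSys (ev' ev c₀)).act q := by
  rw [act_bl]; simp

theorem act_11 (q : Q) : bl c₀ true true ((TSys ev).act q) = (TSys (ev' ev c₀)).act q := by
  rw [act_bl]; simp

theorem act_10 (q : Q) : bl c₀ true false ((TSys ev).act q) = ev c₀ q • 1 := by
  rw [act_bl]; simp

theorem act_01 (q : Q) : bl c₀ false true ((TSys ev).act q) = 0 := by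
  rw [act_bl]; simp

theorem com_D {P : Submodule K Q} {M : Matrix (St {c // c ≠ c₀}) (St {c // c ≠ c₀}) K}
    (h : Com (TSys (ev' ev c₀)) P M) : Com (TSys ev) P (D c₀ M) := by
  intro p hp
  have hm := h p hp
  apply bl_ext4 c₀ <;> rw [bl_mul, bl_mul] <;>
    simp only [act_00, act_11, act_10, act_01, bl_D, if_true, reduceCtorEq, if_false] <;>
    simp [hm]

theorem com_G {M : Matrix (St {c // c ≠ c₀}) (St {c // c ≠ c₀}) K}
    (h : Com (TSys (ev' ev c₀)) (LinearMap.ker (ev c₀)) M) :
    Com (TSys ev) (LinearMap.ker (ev c₀)) (G c₀ M) := by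
  intro p hp
  have hm := h p hp
  have h0 : ev c₀ p = 0 := hp
  apply bl_ext4 c₀ <;> rw [bl_mul, bl_mul] <;>
    simp only [act_00, act_11, act_10, act_01, bl_G, h0, zero_smul, if_true, reduceCtorEq,
      if_false, and_self, and_true, true_and, and_false, false_and, mul_zero, zero_mul, add_zero,
      zero_add, hm]

theorem Tr_D (q : Q) (M : Matrix (St {c // c ≠ c₀}) (St {c // c ≠ c₀}) K) :
    Tr (TSys ev) q (D c₀ M) = D c₀ (Tr (TSys (ev' ev c₀)) q M) := by
  unfold Tr
  apply bl_ext4 c₀ <;>
    simp only [bl_mul, bl_add, act_00, act_11, act_10, act_01, bl_D, if_true, reduceCtorEq,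
      if_false, mul_zero, zero_mul, add_zero, zero_add]
  generalize (TSys (ev' ev c₀)).act q = a
  have t1 := three_smul_mat (K := K) (ev c₀ q • (a * M))
  have t2 := three_smul_mat (K := K) (ev c₀ q • (M * a))
  simp only [smul_mul_assoc, mul_smul_comm, one_mul, mul_one, add_mul]
  linear_combination (norm := noncomm_ring) t1 + t2

theorem main_G (q : Q) (hq : ev c₀ q = 1) (f : Matrix (St ι) (St ι) K) (hf : Com (TSys ev) ⊤ f) :
    f = D c₀ (-(bl c₀ false false f + bl c₀ true true f)) +
      Tr (TSys ev) q (G c₀ (bl c₀ true false f)) := by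
  have H := hf q Submodule.mem_top
  have H00 := congrArg (bl c₀ false false) H
  have H01 := congrArg (bl c₀ false true) H
  have H10 := congrArg (bl c₀ true false) H
  have H11 := congrArg (bl c₀ true true) H
  rw [bl_mul, bl_mul] at H00 H01 H10 H11
  simp only [act_00, act_11, act_10, act_01, hq, one_smul, mul_one, one_mul, mul_zero, zero_mul,
    add_zero, zero_add] at H00 H01 H10 H11
  unfold Tr
  apply bl_ext4 c₀ <;>
    simp only [bl_mul, bl_add, act_00, act_11, act_10, act_01, bl_D, bl_G, hq, one_smul, mul_one,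
      one_mul, if_true, reduceCtorEq,
      if_false, mul_zero, zero_mul, add_zero, zero_add, and_self, and_true, and_false, true_and, false_and]
  all_goals generalize (TSys (ev' ev c₀)).act q = a at H00 H01 H10 H11 ⊢
  all_goals generalize bl c₀ false false f = f00 at H00 H01 H10 H11 ⊢
  all_goals generalize bl c₀ false true f = f01 at H00 H01 H10 H11 ⊢
  all_goals generalize bl c₀ true false f = f10 at H00 H01 H10 H11 ⊢
  all_goals generalize bl c₀ true true f = f11 at H00 H01 H10 H11 ⊢
  · have t1 := three_smul_mat (K := K) f00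
    have t2 := three_smul_mat (K := K) (f10 * a)
    linear_combination (norm := noncomm_ring) t1 - t2 - H10
  · have t1 := three_smul_mat (K := K) f01
    have t2 := three_smul_mat (K := K) (a * f10 * a)
    linear_combination (norm := noncomm_ring) t1 - t2 - a * H10 + H10 * a - H11 + H00
  · have t1 := three_smul_mat (K := K) f11
    have t2 := three_smul_mat (K := K) (a * f10)
    linear_combination (norm := noncomm_ring) t1 - t2 + H10

theorem ept_step (h : EP (TSys (ev' ev c₀)) (ev' ev c₀)) : EP (TSys ev) ev := by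
  intro f hd hf
  have Hb : ∀ q, (TSys ev).act q * f = f * (TSys ev).act q := fun q => hf q Submodule.mem_top
  have d00 := hasDeg_bl c₀ hd false false
  have d11 := hasDeg_bl c₀ hd true true
  have d10 := hasDeg_bl c₀ hd true false
  simp only [if_true, reduceCtorEq, if_false] at d00 d11 d10
  have hφd : HasDeg (TSys (ev' ev c₀)).deg 0 (-(bl c₀ false false f + bl c₀ true true f)) := by
    intro s s' hs
    have h1 : (bl c₀ false false f + bl c₀ true true f) s s' ≠ 0 := by
      intro h2
      apply hs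
      rw [Matrix.neg_apply, h2, neg_zero]
    have e : (0 : ℤ) + 0 - 0 = 0 := by norm_num
    have e2 : (0 : ℤ) + 1 - 1 = 0 := by norm_num
    rw [e] at d00
    rw [e2] at d11
    exact hasDeg_add d00 d11 s s' h1
  have hφc : Com (TSys (ev' ev c₀)) ⊤ (-(bl c₀ false false f + bl c₀ true true f)) := by
    intro q _
    have H := Hb q
    have H00 := congrArg (bl c₀ false false) H
    have H11 := congrArg (bl c₀ true true) H
    rw [bl_mul, bl_mul] at H00 H11
    simp only [act_00, act_11, act_10, act_01, mul_zero, zero_mul,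
      add_zero, zero_add, smul_mul_assoc, mul_smul_comm, one_mul, mul_one] at H00 H11
    linear_combination (norm := noncomm_ring) - H00 - H11
  obtain ⟨a, g', hg', hs⟩ := h _ hφd hφc
  refine ⟨a, fun c => if hc : c = c₀ then G c₀ (bl c₀ true false f) else D c₀ (g' ⟨c, hc⟩), ?_, ?_⟩
  · intro c
    by_cases hc : c = c₀
    · subst hc
      simp only [dif_pos]
      refine ⟨hasDeg_G c ?_, com_G ev c ?_⟩
      · have e : (0 : ℤ) + 0 - 1 = -2 + 1 := by norm_num
        rw [e] at d10
        exact d10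
      · intro q hq
        have hq0 : ev c q = 0 := hq
        have H10 := congrArg (bl c true false) (Hb q)
        rw [bl_mul, bl_mul] at H10
        simpa only [act_00, act_11, act_10, act_01, hq0, zero_smul, mul_zero, zero_mul,
          add_zero, zero_add] using H10
    · simp only [dif_neg hc]
      exact ⟨hasDeg_D c₀ (hg' ⟨c, hc⟩).1, com_D ev c₀ (hg' ⟨c, hc⟩).2⟩
  · intro q hq
    have hs' := hs (fun i => q i.1) (fun i => hq i.1)
    have hm := main_G ev c₀ (q c₀) (hq c₀) f hf
    rw [hs', D_add, D_smul, D_one, D_sum] at hm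
    rw [sum_split c₀]
    beta_reduce
    rw [dif_pos rfl]
    have e : ∀ i : {c // c ≠ c₀}, D c₀ (Tr (TSys (ev' ev c₀)) (q i.1) (g' i)) =
        Tr (TSys ev) (q i.1) (if hc : i.1 = c₀ then G c₀ (bl c₀ true false f)
          else D c₀ (g' ⟨i.1, hc⟩)) := by
      intro i
      rw [dif_neg i.2, Tr_D]
    rw [Finset.sum_congr rfl (fun i _ => e i)] at hm
    rw [add_comm (Tr (TSys ev) (q c₀) (G c₀ (bl c₀ true false f))), ← add_assoc]
    exact hm

end step

theorem ept_aux (K Q : Type) [Field K] [CharP K 3] [AddCommGroup Q] [Module K Q] (n : ℕ) :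
    ∀ (ι : Type) [Fintype ι] [DecidableEq ι] (ev : ι → (Q →ₗ[K] K)), Fintype.card ι = n →
      EP (TSys ev) ev := by
  induction n with
  | zero =>
    intro ι _ _ ev hn
    have hE : IsEmpty ι := Fintype.card_eq_zero_iff.1 hn
    intro f _ _
    refine ⟨f default default, fun _ => 0, fun c => (hE.false c).elim, fun q _ => ?_⟩
    rw [Finset.univ_eq_empty, Finset.sum_empty, add_zero]
    ext s s'
    have h1 : s = default := Subsingleton.elim _ _
    have h2 : s' = default := Subsingleton.elim _ _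
    rw [h1, h2]
    simp
  | succ n ih =>
    intro ι _ _ ev hn
    have hne : Nonempty ι := Fintype.card_pos_iff.1 (by omega)
    obtain ⟨c₀⟩ := hne
    apply ept_step ev c₀
    apply ih
    rw [Fintype.card_subtype_compl, Fintype.card_subtype_eq, hn]
    omega

/-- Row EPT. -/
theorem ept : EPTStmt := by
  intro K Q _ _ _ _ ι _ _ ev
  exact ept_aux K Q _ ι ev rfl

end Pool.Agent.ABC3.H43
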