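import Pool.Agent.ABC3.Stmts

/-!
# Squad ABC3, row TRC (helper43): elementary properties of relative traces
-/

set_option autoImplicit false

namespace Pool.Agent.ABC3.H43

open Matrix

section

variable {K Q B : Type} [Field K] [AddCommGroup Q] [Module K Q]
  [Fintype B] [DecidableEq B] (S : Sys K Q B)

theorem hasDeg_add {deg : B → ℤ} {k : ℤ} {M N : Matrix B B K} (hM : HasDeg deg k M)
    (hN : HasDeg deg k N) : HasDeg deg k (M + N) := by
  intro s s' h
  by_cases h1 : M s s' = 0
  · apply hN s s'
    intro h2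
    apply h
    rw [Matrix.add_apply, h1, h2, add_zero]
  · exact hM s s' h1

theorem hasDeg_mul {deg : B → ℤ} {k l : ℤ} {M N : Matrix B B K} (hM : HasDeg deg k M)
    (hN : HasDeg deg l N) : HasDeg deg (k + l) (M * N) := by
  intro s s' h
  rw [Matrix.mul_apply] at h
  obtain ⟨j, -, hj⟩ := Finset.exists_ne_zero_of_sum_ne_zero h
  have h1 := hM s j (left_ne_zero_of_mul hj)
  have h2 := hN j s' (right_ne_zero_of_mul hj)
  rw [h1, h2]
  ring

theorem hasDeg_act (q : Q) : HasDeg S.deg 1 (S.act q) := fun s s' h => S.hdeg q s s' h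

theorem hasDeg_Tr {k : ℤ} (q : Q) {g : Matrix B B K} (hg : HasDeg S.deg k g) :
    HasDeg S.deg (k + 2) (Tr S q g) := by
  have ha := hasDeg_act S q
  have h1 : HasDeg S.deg (k + 2) (S.act q * S.act q * g) := by
    have h := hasDeg_mul (hasDeg_mul ha ha) hg
    have e : (1 + 1 + k : ℤ) = k + 2 := by ring
    rw [e] at h
    exact h
  have h2 : HasDeg S.deg (k + 2) (S.act q * g * S.act q) := by
    have h := hasDeg_mul (hasDeg_mul ha hg) ha
    have e : (1 + k + 1 : ℤ) = k + 2 := by ring
    rw [e] at h
    exact h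
  have h3 : HasDeg S.deg (k + 2) (g * S.act q * S.act q) := by
    have h := hasDeg_mul (hasDeg_mul hg ha) ha
    have e : (k + 1 + 1 : ℤ) = k + 2 := by ring
    rw [e] at h
    exact h
  exact hasDeg_add (hasDeg_add h1 h2) h3

theorem comm_Tr_self (q : Q) (g : Matrix B B K) :
    S.act q * Tr S q g = Tr S q g * S.act q := by
  have hc := S.cube q
  unfold Tr
  generalize S.act q = a at hc ⊢
  have e : a * (a * a * g + a * g * a + g * a * a) - (a * a * g + a * g * a + g * a * a) * a =
      a * a * a * g - g * (a * a * a) := by noncomm_ring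
  have e2 : a * (a * a * g + a * g * a + g * a * a) - (a * a * g + a * g * a + g * a * a) * a = 0 := by
    rw [e, hc, zero_mul, mul_zero, sub_zero]
  exact sub_eq_zero.1 e2

theorem comm_Tr_of (q p : Q) (g : Matrix B B K) (hp : S.act p * g = g * S.act p) :
    S.act p * Tr S q g = Tr S q g * S.act p := by
  have hc := S.comm p q
  unfold Tr
  generalize S.act q = a at hc ⊢
  generalize S.act p = b at hc hp ⊢
  have c1 : Commute b a := hc
  have c2 : Commute b g := hp
  exact (((c1.mul_right c1).mul_right c2).add_right ((c1.mul_right c2).mul_right c1)).add_right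
    ((c2.mul_right c1).mul_right c1)

theorem com_Tr (P : Submodule K Q) (l : Q →ₗ[K] K) (q : Q) (g : Matrix B B K)
    (hg : Com S (P ⊓ LinearMap.ker l) g) (hq : q ∈ P) (hl : l q = 1) : Com S P (Tr S q g) := by
  intro p hp
  have hp' : p - l p • q ∈ P ⊓ LinearMap.ker l := by
    refine ⟨P.sub_mem hp (P.smul_mem _ hq), ?_⟩
    show p - l p • q ∈ LinearMap.ker l
    rw [LinearMap.mem_ker, map_sub, map_smul, hl, smul_eq_mul, mul_one, sub_self]
  have h1 := comm_Tr_of S q (p - l p • q) g (hg _ hp')
  have h2 := comm_Tr_self S q g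
  have e : S.act p = S.act (p - l p • q) + l p • S.act q := by
    rw [← map_smul, ← map_add, sub_add_cancel]
  rw [e, add_mul, mul_add, h1, smul_mul_assoc, h2, mul_smul_comm]

theorem mul_Tr_mul (q : Q) (A g C : Matrix B B K) (hA : S.act q * A = A * S.act q)
    (hC : S.act q * C = C * S.act q) : A * Tr S q g * C = Tr S q (A * g * C) := by
  unfold Tr
  generalize S.act q = a at hA hC ⊢
  have e1 : A * (a * a * g) * C = a * a * (A * g * C) := by
    calc A * (a * a * g) * C = (A * a) * a * g * C := by noncomm_ring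
      _ = (a * A) * a * g * C := by rw [hA]
      _ = a * (A * a) * g * C := by noncomm_ring
      _ = a * (a * A) * g * C := by rw [hA]
      _ = a * a * (A * g * C) := by noncomm_ring
  have e2 : A * (a * g * a) * C = a * (A * g * C) * a := by
    calc A * (a * g * a) * C = (A * a) * g * (a * C) := by noncomm_ring
      _ = a * (A * g * C) * a := by rw [← hA, hC]; noncomm_ring
  have e3 : A * (g * a * a) * C = A * g * C * a * a := by
    calc A * (g * a * a) * C = A * g * a * (a * C) := by noncomm_ring
      _ = A * g * a * (C * a) := by rw [hC]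
      _ = A * g * (a * C) * a := by noncomm_ring
      _ = A * g * (C * a) * a := by rw [hC]
      _ = A * g * C * a * a := by noncomm_ring
  rw [mul_add, mul_add, add_mul, add_mul, e1, e2, e3]

theorem Tr_add (q : Q) (g g' : Matrix B B K) : Tr S q (g + g') = Tr S q g + Tr S q g' := by
  unfold Tr
  noncomm_ring

theorem trace_Tr [CharP K 3] (q : Q) (g : Matrix B B K) : Matrix.trace (Tr S q g) = 0 := by
  unfold Tr
  generalize S.act q = a
  have h1 : Matrix.trace (a * g * a) = Matrix.trace (a * a * g) := by
    rw [Matrix.trace_mul_comm (a * g) a, mul_assoc]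
  have h2 : Matrix.trace (g * a * a) = Matrix.trace (a * a * g) := by
    rw [mul_assoc, Matrix.trace_mul_comm g (a * a)]
  have h3 : (3 : K) = 0 := by
    have := CharP.cast_eq_zero K 3
    exact_mod_cast this
  rw [Matrix.trace_add, Matrix.trace_add, h1, h2]
  linear_combination (Matrix.trace (a * a * g)) * h3

theorem three_smul_mat [CharP K 3] (M : Matrix B B K) : M + M + M = 0 := by
  have h3 : (3 : K) = 0 := by
    have := CharP.cast_eq_zero K 3
    exact_mod_cast this
  ext s s'
  rw [Matrix.add_apply, Matrix.add_apply, Matrix.zero_apply]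
  linear_combination (M s s') * h3

theorem Tr_indep [CharP K 3] (P : Submodule K Q) (l : Q →ₗ[K] K) (q q' : Q) (g : Matrix B B K)
    (hg : Com S (P ⊓ LinearMap.ker l) g) (hq : q ∈ P) (hq' : q' ∈ P) (hl : l q = 1)
    (hl' : l q' = 1) : Tr S q g = Tr S q' g := by
  have hp' : q' - q ∈ P ⊓ LinearMap.ker l := by
    refine ⟨P.sub_mem hq' hq, ?_⟩
    show q' - q ∈ LinearMap.ker l
    rw [LinearMap.mem_ker, map_sub, hl, hl', sub_self]
  have h1 := hg _ hp'
  have h2 := S.comm (q' - q) q
  have e : S.act q' = S.act q + S.act (q' - q) := by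
    rw [← map_add]
    congr 1
    abel
  unfold Tr
  rw [e]
  generalize S.act q = a at h1 h2 ⊢
  generalize S.act (q' - q) = p at h1 h2 ⊢
  have x1 : a * p * g = p * a * g := by rw [h2]
  have x2 : p * p * g = p * p * g := rfl
  have x3 : a * g * p = p * a * g := by rw [mul_assoc, ← h1, ← mul_assoc, h2]
  have x4 : p * g * p = p * p * g := by rw [mul_assoc, ← h1, ← mul_assoc]
  have x5 : g * a * p = p * g * a := by rw [mul_assoc, ← h2, ← mul_assoc, h1]
  have x6 : g * p * a = p * g * a := by rw [h1]
  have x7 : g * p * p = p * p * g := by rw [← h1, mul_assoc, ← h1, ← mul_assoc]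
  have t1 := three_smul_mat (K := K) (p * a * g)
  have t2 := three_smul_mat (K := K) (p * p * g)
  have t3 := three_smul_mat (K := K) (p * g * a)
  have big : (a + p) * (a + p) * g + (a + p) * g * (a + p) + g * (a + p) * (a + p) =
      (a * a * g + a * g * a + g * a * a) + (a * p * g + p * a * g + a * g * p) +
        (p * p * g + p * g * p + g * p * p) + (p * g * a + g * a * p + g * p * a) := by
    noncomm_ring
  rw [big, x1, x3, x4, x5, x6, x7, t1, t2, t3, add_zero, add_zero, add_zero]

end

/-- Row TRC. -/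
theorem trc : TRCStmt := by
  intro K Q B _ _ _ _ _ _ S
  refine ⟨fun q g => trace_Tr S q g, fun P l q g hg hq hl => com_Tr S P l q g hg hq hl,
    fun k q g hg => hasDeg_Tr S q hg, fun q A g C hA hC => mul_Tr_mul S q A g C hA hC,
    fun P l q q' g hg hq hq' hl hl' => Tr_indep S P l q q' g hg hq hq' hl hl',
    fun q g g' => Tr_add S q g g'⟩

end Pool.Agent.ABC3.H43
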